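import Pool.Agent.W425.BF.Stm

set_option autoImplicit false

/-! Project BF: assembly of (II). -/

namespace Pool.Agent.W177.BF

open Pool.Agent.W425.BF Pool.Agent.W803.SM
open Pool.Agent.W426.SM (gord face IsRay)

variable {n k : ℕ}

/-- the values of the variables -/
noncomputable def yy (p : ℕ) (c μ : Fin n → ℕ) (z t : ℂ) (x : Fin n) : ℂ :=
  (p : ℂ)⁻¹ * z ^ c x * t ^ μ x

theorem W2_eq (p : ℕ) (c μ : Fin n → ℕ) (z t : ℂ) (u : Fin n → ℕ) :
    W2 p c (∑ x, u x * μ x) z t u = ∏ x, yy p c μ z t x ^ u x := by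
  unfold W2 yy
  simp only [mul_pow, Finset.prod_mul_distrib, ← pow_mul]
  rw [Finset.prod_pow_eq_pow_sum, Finset.prod_pow_eq_pow_sum, Finset.prod_pow_eq_pow_sum]
  congr 2
  exact Finset.sum_congr rfl fun x _ => mul_comm _ _

theorem inv_le_half {p : ℕ} (hp : 2 ≤ p) : ‖(p : ℂ)⁻¹‖ ≤ 1 / 2 := by
  rw [norm_inv, Complex.norm_natCast, one_div]
  apply inv_anti₀ (by norm_num)
  exact_mod_cast hp

theorem norm_yy {p : ℕ} (hp : 2 ≤ p) (c μ : Fin n → ℕ) {z t : ℂ} (hz : ‖z‖ ≤ 1) (ht : ‖t‖ ≤ 1)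
    (x : Fin n) : ‖yy p c μ z t x‖ < 1 := by
  unfold yy
  rw [norm_mul, norm_mul, norm_pow, norm_pow]
  have h2 : ‖z‖ ^ c x ≤ 1 := pow_le_one₀ (norm_nonneg _) hz
  have h3 : ‖t‖ ^ μ x ≤ 1 := pow_le_one₀ (norm_nonneg _) ht
  calc ‖(p : ℂ)⁻¹‖ * ‖z‖ ^ c x * ‖t‖ ^ μ x ≤ 1 / 2 * 1 * 1 := by
        apply mul_le_mul _ h3 (by positivity) (by norm_num)
        exact mul_le_mul (inv_le_half hp) h2 (by positivity) (by norm_num)
    _ < 1 := by norm_num

theorem norm_W2 {p : ℕ} (hp : 2 ≤ p) (c : Fin n → ℕ) (N : ℕ) {z t : ℂ} (hz : ‖z‖ ≤ 1)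
    (ht : ‖t‖ ≤ 1) (u : Fin n → ℕ) : ‖W2 p c N z t u‖ ≤ ∏ x, ((1 : ℝ) / 2) ^ u x := by
  unfold W2
  rw [norm_mul, norm_mul, norm_pow, norm_pow, norm_pow, Finset.prod_pow_eq_pow_sum]
  have h1 : ‖(p : ℂ)⁻¹‖ ^ (∑ x, u x) ≤ (1 / 2 : ℝ) ^ (∑ x, u x) :=
    pow_le_pow_left₀ (norm_nonneg _) (inv_le_half hp) _
  have h2 : ‖z‖ ^ (∑ x, c x * u x) ≤ 1 := pow_le_one₀ (norm_nonneg _) hz
  have h3 : ‖t‖ ^ N ≤ 1 := pow_le_one₀ (norm_nonneg _) ht
  calc _ ≤ (1 / 2 : ℝ) ^ (∑ x, u x) * 1 * 1 := by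
        apply mul_le_mul _ h3 (by positivity) (by positivity)
        exact mul_le_mul h1 h2 (by positivity) (by positivity)
    _ = _ := by ring

/-- evaluation as a ring homomorphism -/
noncomputable def evh (z t : ℂ) : Polynomial (Polynomial ℂ) →+* ℂ :=
  Polynomial.eval₂RingHom (Polynomial.evalRingHom z) t

theorem ev2_eq (A : Polynomial (Polynomial ℂ)) (z t : ℂ) : ev2 A z t = evh z t A := rfl

theorem evh_C (z t : ℂ) (A : Polynomial ℂ) : evh z t (Polynomial.C A) = A.eval z := by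
  simp [evh]

theorem evh_X (z t : ℂ) : evh z t Polynomial.X = t := by
  simp [evh]

noncomputable def W2P (p : ℕ) (c : Fin n → ℕ) (N : ℕ) (u : Fin n → ℕ) :
    Polynomial (Polynomial ℂ) :=
  Polynomial.C (Polynomial.C ((p : ℂ)⁻¹ ^ (∑ x, u x)) * Polynomial.X ^ (∑ x, c x * u x)) *
    Polynomial.X ^ N

theorem evh_W2P (p : ℕ) (c : Fin n → ℕ) (N : ℕ) (u : Fin n → ℕ) (z t : ℂ) :
    evh z t (W2P p c N u) = W2 p c N z t u := by
  unfold W2P W2
  rw [map_mul, map_pow (evh z t) Polynomial.X N, evh_C, evh_X]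
  simp

noncomputable def yyP (p : ℕ) (c μ : Fin n → ℕ) (x : Fin n) : Polynomial (Polynomial ℂ) :=
  Polynomial.C (Polynomial.C ((p : ℂ)⁻¹) * Polynomial.X ^ c x) * Polynomial.X ^ μ x

theorem evh_yyP (p : ℕ) (c μ : Fin n → ℕ) (x : Fin n) (z t : ℂ) :
    evh z t (yyP p c μ x) = yy p c μ z t x := by
  unfold yyP yy
  rw [map_mul, map_pow, evh_C, evh_X]
  simp

theorem evh_aeval (p : ℕ) (c μ : Fin n → ℕ) (z t : ℂ) (P : MvPolynomial (Fin n) ℤ) :
    evh z t (MvPolynomial.aeval (yyP p c μ) P) = MvPolynomial.aeval (yy p c μ z t) P := by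
  induction P using MvPolynomial.induction_on with
  | C a => simp
  | add P Q hP hQ => simp only [map_add, hP, hQ]
  | mul_X P i hP => simp only [map_mul, MvPolynomial.aeval_X, hP, evh_yyP]

/-- a region with its generating function -/
theorem region (R : Set (Fin n → ℕ)) (μ : Fin n → ℕ) {T : ℕ} (ray : Fin T → Fin n → ℕ)
    (P : MvPolynomial (Fin n) ℤ)
    (hP : ∀ y : Fin n → ℂ, (∀ x, ‖y x‖ < 1) →
      (∑' u : R, ∏ x, y x ^ (u : Fin n → ℕ) x) * ∏ q, (1 - ∏ x, y x ^ ray q x) =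
        MvPolynomial.aeval y P) {p : ℕ} (hp : 2 ≤ p) (c : Fin n → ℕ) {z t : ℂ} (hz : ‖z‖ ≤ 1)
    (ht : ‖t‖ ≤ 1) :
    (∑' u : R, W2 p c (∑ x, u.1 x * μ x) z t u.1) *
      ∏ q, (1 - W2 p c (∑ x, ray q x * μ x) z t (ray q)) =
      evh z t (MvPolynomial.aeval (yyP p c μ) P) := by
  rw [evh_aeval, ← hP _ (norm_yy hp c μ hz ht)]
  congr 1
  · exact tsum_congr fun u => W2_eq p c μ z t u.1
  · exact Finset.prod_congr rfl fun q _ => by rw [W2_eq]

theorem main : TaskIIA := by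
  classical
  intro hGF hFIB hDISJ hNPA hCELL n k m i hk
  obtain ⟨S, ι, hι, h, d, τ, c1, c2, c3, c4, c5, c6⟩ := hCELL m i hk
  -- the regions
  let Reg : Type := {j0 : Fin k // m j0 i = 1} ⊕ Fin S
  let R : Reg → Set (Fin n → ℕ) := Sum.elim (fun j0 => PA m i j0.1) (fun σ => Pol (h σ) (d σ))
  have hR : ∀ u, ∃ ρ : Reg, u ∈ R ρ := by
    intro u
    rcases c3 u with ⟨j0, hj0, hu⟩ | ⟨σ, hu⟩
    · exact ⟨Sum.inl ⟨j0, hj0⟩, hu⟩
    · exact ⟨Sum.inr σ, hu⟩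
  have hR2 : ∀ (ρ ρ' : Reg) (u : Fin n → ℕ), u ∈ R ρ → u ∈ R ρ' → ρ = ρ' := by
    rintro (⟨j0, hj0⟩ | σ) (⟨j1, hj1⟩ | σ') u hu hu'
    · by_contra hne
      have hne' : j0 ≠ j1 := by
        rintro rfl
        exact hne rfl
      exact Set.disjoint_left.mp (hDISJ m i j0 j1 hj0 hj1 hne') hu hu'
    · exact absurd hu (c4 σ' u hu' j0 hj0)
    · exact absurd hu' (c4 σ u hu j1 hj1)
    · by_contra hne
      have hne' : σ ≠ σ' := by
        rintro rfl
        exact hne rfl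
      exact Set.disjoint_left.mp (c5 σ σ' hne') hu hu'
  -- the data of a region
  have hdata : ∀ ρ : Reg, ∃ (μ : Fin n → ℕ) (T : ℕ) (ray : Fin T → Fin n → ℕ)
      (P : MvPolynomial (Fin n) ℤ),
      (∀ q, ray q ≠ 0 ∧ ∀ a, Rem m i a → ¬ Par a (ray q)) ∧
      (∀ y : Fin n → ℂ, (∀ x, ‖y x‖ < 1) →
        (∑' u : R ρ, ∏ x, y x ^ (u : Fin n → ℕ) x) * ∏ q, (1 - ∏ x, y x ^ ray q x) =
          MvPolynomial.aeval y P) ∧
      ∀ (p : ℕ), 2 ≤ p → ∀ (c : Fin n → ℕ), c i = 0 →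
        ∀ (E : ℂ) (γ : Finset (Fin k) → Polynomial ℂ), Rel m i p E γ →
        ∃ Q : Polynomial (Polynomial ℂ), ∀ z t : ℂ, ‖z‖ ≤ 1 → ‖t‖ ≤ 1 →
          ∑' u : R ρ, W2 p c (gord m u.1) z t u.1 * (γ (filt m u.1)).eval t =
            evh z t Q * ∑' u : R ρ, W2 p c (∑ x, u.1 x * μ x) z t u.1 := by
    rintro (⟨j0, hj0⟩ | σ)
    · obtain ⟨T, ray, P, hray, hP⟩ := hGF (cf m i j0) (cd m i j0)
      refine ⟨m j0, T, ray, P, fun q => ⟨(hray q).1, fun a ha => hNPA m i j0 hj0 _ (hray q) a ha⟩,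
        hP, ?_⟩
      intro p hp c hc E γ hrel
      refine ⟨Polynomial.C (Polynomial.C E) *
        (1 - Polynomial.C (Polynomial.C ((p : ℂ)⁻¹)) * Polynomial.X), fun z t hz ht => ?_⟩
      have h1 := hFIB m i j0 hj0 p hp c hc E γ hrel z t hz ht
      have h2 : evh z t (Polynomial.C (Polynomial.C E) *
        (1 - Polynomial.C (Polynomial.C ((p : ℂ)⁻¹)) * Polynomial.X)) =
          E * (1 - (p : ℂ)⁻¹ * t) := by
        simp [evh]
      rw [h2]
      exact h1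
    · obtain ⟨T, ray, P, hray, hP⟩ := hGF (h σ) (d σ)
      obtain ⟨j1, hj1⟩ := c2 σ
      refine ⟨m j1, T, ray, P, fun q => ⟨(hray q).1, fun a ha => c6 σ _ (hray q) a ha⟩,
        hP, ?_⟩
      intro p hp c hc E γ hrel
      refine ⟨(γ (τ σ)).map Polynomial.C, fun z t hz ht => ?_⟩
      have h2 : evh z t ((γ (τ σ)).map Polynomial.C) = (γ (τ σ)).eval t := by
        unfold evh
        rw [Polynomial.coe_eval₂RingHom, Polynomial.eval₂_map]
        have : (Polynomial.evalRingHom z).comp Polynomial.C = RingHom.id ℂ := by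
          ext y
          simp
        rw [this]
        rfl
      rw [h2, ← tsum_mul_left]
      refine tsum_congr fun u => ?_
      have hf : filt m u.1 = τ σ := c1 σ u.1 u.2
      have hg : ∑ x, u.1 x * m j1 x = gord m u.1 := mem_filt.1 (by rw [hf]; exact hj1)
      rw [hf, hg, mul_comm]
  choose μ T ray P hray hP hQ using hdata
  -- the index set
  let I : Type := Σ ρ : Reg, Fin (T ρ)
  let ψ : I ≃ Fin (Fintype.card I) := Fintype.equivFin I
  refine ⟨Fintype.card I, fun q => ray (ψ.symm q).1 (ψ.symm q).2,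
    fun q => ∑ x, ray (ψ.symm q).1 (ψ.symm q).2 x * μ (ψ.symm q).1 x, fun q => hray _ _, ?_⟩
  intro p hp c hc E γ hrel
  choose Q hQ' using fun ρ => hQ ρ p hp c hc E γ hrel
  let DP : Reg → Polynomial (Polynomial ℂ) := fun ρ =>
    ∏ q, (1 - W2P p c (∑ x, ray ρ q x * μ ρ x) (ray ρ q))
  refine ⟨∑ ρ : Reg, Q ρ * MvPolynomial.aeval (yyP p c (μ ρ)) (P ρ) *
    ∏ ρ' ∈ Finset.univ.erase ρ, DP ρ', fun z t hz ht => ?_⟩
  rw [ev2_eq, map_sum]
  let D : Reg → ℂ := fun ρ => ∏ q, (1 - W2 p c (∑ x, ray ρ q x * μ ρ x) z t (ray ρ q))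
  have hDP : ∀ ρ, evh z t (DP ρ) = D ρ := by
    intro ρ
    change evh z t (∏ q, (1 - W2P p c (∑ x, ray ρ q x * μ ρ x) (ray ρ q))) = _
    rw [map_prod]
    refine Finset.prod_congr rfl fun q _ => ?_
    rw [map_sub, map_one, evh_W2P]
  -- splitting of the sum
  have hsumm : Summable (fun u : Fin n → ℕ =>
      W2 p c (gord m u) z t u * (γ (filt m u)).eval t) := by
    refine Summable.of_norm_bounded
      (g := fun u : Fin n → ℕ => (∏ x, ((1 : ℝ) / 2) ^ u x) *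
        ∑ τ : Finset (Fin k), ‖(γ τ).eval t‖)
      (summable_half.mul_right _) fun u => ?_
    rw [norm_mul]
    refine mul_le_mul (norm_W2 hp c _ hz ht u) ?_ (norm_nonneg _)
      (Finset.prod_nonneg fun i _ => by positivity)
    exact Finset.single_le_sum (f := fun τ => ‖(γ τ).eval t‖) (fun τ _ => norm_nonneg _)
      (Finset.mem_univ (filt m u))
  have hsplit : Gz m γ p c z t = ∑ ρ : Reg,
      ∑' u : R ρ, W2 p c (gord m u.1) z t u.1 * (γ (filt m u.1)).eval t := by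
    choose φ hφ using hR
    have h3 := (Equiv.sigmaFiberEquiv φ).tsum_eq
      (fun u : Fin n → ℕ => W2 p c (gord m u) z t u * (γ (filt m u)).eval t)
    have h4 : Summable (fun x : (Σ ρ, {u // φ u = ρ}) =>
        W2 p c (gord m ((Equiv.sigmaFiberEquiv φ) x)) z t ((Equiv.sigmaFiberEquiv φ) x) *
          (γ (filt m ((Equiv.sigmaFiberEquiv φ) x))).eval t) :=
      (Equiv.summable_iff (Equiv.sigmaFiberEquiv φ)).2 hsumm
    unfold Gz
    rw [← h3, h4.tsum_sigma, tsum_fintype]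
    refine Finset.sum_congr rfl fun ρ _ => ?_
    have h5 : R ρ = {u | φ u = ρ} := by
      ext u
      constructor
      · intro hu
        exact hR2 _ _ u (hφ u) hu
      · intro hu
        have hu' : φ u = ρ := hu
        rw [← hu']
        exact hφ u
    rw [tsum_congr_set_coe (fun u : Fin n → ℕ =>
      W2 p c (gord m u) z t u * (γ (filt m u)).eval t) h5]
    rfl
  have hprod : ∏ q : Fin (Fintype.card I), (1 - W2 p c
      (∑ x, ray (ψ.symm q).1 (ψ.symm q).2 x * μ (ψ.symm q).1 x) z t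
      (ray (ψ.symm q).1 (ψ.symm q).2)) = ∏ ρ, D ρ := by
    rw [Equiv.prod_comp ψ.symm (fun y : I => 1 - W2 p c (∑ x, ray y.1 y.2 x * μ y.1 x) z t
      (ray y.1 y.2)), Fintype.prod_sigma]
  rw [hprod, hsplit, Finset.sum_mul]
  refine Finset.sum_congr rfl fun ρ _ => ?_
  rw [map_mul, map_mul, map_prod, hQ' ρ z t hz ht,
    ← Finset.mul_prod_erase Finset.univ D (Finset.mem_univ ρ),
    ← region (R ρ) (μ ρ) (ray ρ) (P ρ) (hP ρ) hp c hz ht]
  have hpe : ∏ ρ' ∈ Finset.univ.erase ρ, evh z t (DP ρ') = ∏ ρ' ∈ Finset.univ.erase ρ, D ρ' :=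
    Finset.prod_congr rfl fun ρ' _ => hDP ρ'
  rw [hpe]
  ring

end Pool.Agent.W177.BF
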